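import Mathlib

/-!
# Levels of an entire function: local inverse functions which cover all solutions in a disc
-/

set_option autoImplicit false

open Filter Topology Set

namespace Pool.Agent.H97.AL

/-- the local inverse function at a point where the derivative does not vanish -/
theorem branch {f : ℂ → ℂ} (hf : Differentiable ℂ f) (s : ℂ) (h : deriv f s ≠ 0) :
    ∃ g : ℂ → ℂ, AnalyticAt ℂ g (f s) ∧ g (f s) = s ∧ (∀ᶠ a in 𝓝 (f s), f (g a) = a) ∧
      ∀ᶠ t in 𝓝 s, g (f t) = t := by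
  have ha : AnalyticAt ℂ f s := hf.analyticAt s
  have h1 := ha.analyticAt_localInverse h
  refine ⟨_, h1, ?_, ?_, ?_⟩
  · exact HasStrictFDerivAt.localInverse_apply_image _
  · exact HasStrictFDerivAt.eventually_right_inverse _
  · exact HasStrictFDerivAt.eventually_left_inverse _

/-- near a level without critical points in the disc `|s| ≤ R` the solutions in this disc are the values of
finitely many local inverse functions -/
theorem cover {f : ℂ → ℂ} (hf : Differentiable ℂ f) (a₀ : ℂ) (R : ℝ)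
    (h : ∀ s : ℂ, ‖s‖ ≤ R → f s = a₀ → deriv f s ≠ 0) :
    ∃ (Z : Finset ℂ) (g : ℂ → ℂ → ℂ), (∀ s ∈ Z, AnalyticAt ℂ (g s) a₀ ∧ g s a₀ = s ∧ f s = a₀ ∧
      (∀ᶠ a in 𝓝 a₀, f (g s a) = a) ∧ ∀ᶠ t in 𝓝 s, g s (f t) = t) ∧
      ∀ᶠ a in 𝓝 a₀, ∀ t : ℂ, ‖t‖ ≤ R → f t = a → ∃ s ∈ Z, g s a = t := by
  classical
  set S : Set ℂ := Metric.closedBall 0 R ∩ f ⁻¹' {a₀} with hS
  have hSc : IsCompact S := (isCompact_closedBall _ _).inter_right (isClosed_singleton.preimage hf.continuous)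
  have hb : ∀ s : ℂ, ∃ g : ℂ → ℂ, s ∈ S → AnalyticAt ℂ g a₀ ∧ g a₀ = s ∧ (∀ᶠ a in 𝓝 a₀, f (g a) = a) ∧
      ∀ᶠ t in 𝓝 s, g (f t) = t := by
    intro s
    by_cases hs : s ∈ S
    · obtain ⟨g, h1, h2, h3, h4⟩ := branch hf s (h s (by simpa using hs.1) hs.2)
      have h5 : f s = a₀ := hs.2
      rw [h5] at h1 h2 h3
      exact ⟨g, fun _ => ⟨h1, h2, h3, h4⟩⟩
    · exact ⟨0, fun hh => absurd hh hs⟩
  choose g hg using hb
  obtain ⟨Z, hZS, hZ⟩ := hSc.elim_nhds_subcover (fun s => interior {t | g s (f t) = t}) (fun s hs =>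
    interior_mem_nhds.2 (hg s hs).2.2.2)
  refine ⟨Z, g, fun s hs => ?_, ?_⟩
  · obtain ⟨h1, h2, h3, h4⟩ := hg s (hZS s hs)
    exact ⟨h1, h2, (hZS s hs).2, h3, h4⟩
  · set Q : Set ℂ := Metric.closedBall 0 R \ ⋃ s ∈ Z, interior {t | g s (f t) = t} with hQ
    have hQc : IsCompact Q := (isCompact_closedBall _ _).diff (isOpen_biUnion fun s _ => isOpen_interior)
    have hcl : IsClosed (f '' Q) := (hQc.image hf.continuous).isClosed
    have hna : a₀ ∉ f '' Q := by
      rintro ⟨t, ht, hta⟩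
      exact ht.2 (hZ ⟨ht.1, hta⟩)
    filter_upwards [hcl.isOpen_compl.mem_nhds hna] with a ha t ht hta
    have h1 : t ∉ Q := fun hh => ha ⟨t, hh, hta⟩
    have h2 : t ∈ ⋃ s ∈ Z, interior {t | g s (f t) = t} := by
      by_contra hcon
      exact h1 ⟨by simpa using ht, hcon⟩
    obtain ⟨s, hs, hts⟩ := Set.mem_iUnion₂.1 h2
    refine ⟨s, hs, ?_⟩
    have h3 : t ∈ {t | g s (f t) = t} := interior_subset hts
    have h4 : g s (f t) = t := h3
    rwa [hta] at h4

/-- the imaginary part of a branch, as an analytic function -/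
noncomputable def im (g : ℂ → ℂ) (a : ℂ) : ℂ := (g a - (starRingEnd ℂ) (g ((starRingEnd ℂ) a))) / (2 * Complex.I)

theorem im_real (g : ℂ → ℂ) (a : ℝ) : im g a = ((g a).im : ℂ) := by
  rw [im, Complex.conj_ofReal, Complex.sub_conj]
  have := Complex.I_ne_zero
  field_simp
  push_cast
  ring

theorem im_analytic {g : ℂ → ℂ} {a : ℝ} (h : AnalyticAt ℂ g a) : AnalyticAt ℂ (im g) a := by
  have h1 : AnalyticAt ℂ (fun z => (starRingEnd ℂ) (g ((starRingEnd ℂ) z))) a := by
    rw [Complex.analyticAt_iff_eventually_differentiableAt] at h ⊢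
    have h2 : Tendsto (starRingEnd ℂ) (𝓝 (a : ℂ)) (𝓝 (a : ℂ)) := by
      have := (Complex.continuous_conj).tendsto (a : ℂ)
      rwa [Complex.conj_ofReal] at this
    filter_upwards [h2.eventually h] with z hz
    have h3 := hz.conj_conj
    rw [Complex.conj_conj] at h3
    exact h3
  exact (h.sub h1).div_const

end Pool.Agent.H97.AL
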