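import Pool.Graph.R_pool_sql_team_seeded_2aa45f1a.Q192.QD.Sigma

/-!
# Counting the exceptional tuples of levels
-/

set_option autoImplicit false

open Filter Topology Set MvPolynomial

namespace Pool.Agent.H97.AL

open Pool.Agent.Y124 (LocInd)
open Pool.Agent.Q192.QD (AlgLe SInt nfd MgF fields_sigma)

/-- a finite family of analytic functions which are locally algebraically independent -/
structure Piece where
  κ : Type
  fin : Fintype κ
  U : Set ℂ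
  C : Set ℂ
  y : κ → ℂ → ℂ
  hU : IsOpen U
  hc : IsPreconnected U
  hC : IsCompact C
  hCU : C ⊆ U
  hy : ∀ i, AnalyticOnNhd ℂ (y i) U
  hl : ∀ t ∈ U, LocInd y t

attribute [instance] Piece.fin

/-- the sets `M` of numbers which are admissible at the level `a ∈ K` are values of one of finitely many pieces -/
def Cov (Adm : ℂ → Set ℂ → Prop) (K : Set ℂ) : Prop :=
  ∃ S : Set Piece, S.Finite ∧ ∀ a ∈ K, ∀ M : Set ℂ, Adm a M → ∃ p ∈ S, a ∈ p.C ∧ ∀ v ∈ M, ∃ i, p.y i a = v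

theorem Cov.of_local {Adm : ℂ → Set ℂ → Prop} {K : Set ℂ} (hK : IsCompact K)
    (h : ∀ x ∈ K, ∃ t ∈ 𝓝 x, Cov Adm t) : Cov Adm K := by
  refine hK.induction_on (p := fun K => Cov Adm K) ?_ ?_ ?_ ?_
  · exact ⟨∅, Set.finite_empty, fun a ha => absurd ha (Set.notMem_empty a)⟩
  · rintro s t hst ⟨S, hS, h1⟩
    exact ⟨S, hS, fun a ha => h1 a (hst ha)⟩
  · rintro s t ⟨S, hS, h1⟩ ⟨S', hS', h1'⟩
    refine ⟨S ∪ S', hS.union hS', fun a ha M hM => ?_⟩
    rcases ha with ha | ha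
    · obtain ⟨p, hp, h2⟩ := h1 a ha M hM
      exact ⟨p, Or.inl hp, h2⟩
    · obtain ⟨p, hp, h2⟩ := h1' a ha M hM
      exact ⟨p, Or.inr hp, h2⟩
  · intro x hx
    obtain ⟨t, ht, h1⟩ := h x hx
    exact ⟨t, mem_nhdsWithin_of_mem_nhds ht, h1⟩

/-- the number `s_k` belongs to the level with the index `lev k`; the numbers are distinct for each level, they are
admissible, and they satisfy an approximate relation -/
def RelA (Adm : ℂ → Set ℂ → Prop) {N g : ℕ} (ω : Fin g → ℂ) (d : ℕ) (A B T : ℝ) (a : Fin N → ℂ) : Prop :=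
  ∃ (n : ℕ) (lev : Fin n → Fin N) (s : Fin n → ℂ), (∀ j, Adm (a j) {v | ∃ k, lev k = j ∧ s k = v}) ∧
    (∀ k l, k ≠ l → lev k = lev l → s k ≠ s l) ∧
    ∃ P : MvPolynomial (Fin n) ℂ, (∀ k, P.degreeOf k ≤ d) ∧
      (∀ e, ∃ c : Fin g → ℂ, (∀ i, SInt (Set.range a) (T ^ A) (c i)) ∧ P.coeff e = ∑ i, ω i * c i) ∧
      ∃ e₀, P.coeff e₀ ≠ 0 ∧ ‖MvPolynomial.eval s P‖ ≤ T ^ (-B) * ‖P.coeff e₀‖

/-- the relation for a tuple of pieces -/
def RelP {N g : ℕ} (p : Fin N → Piece) (ω : Fin g → ℂ) (d : ℕ) (A B T : ℝ) (a : Fin N → ℂ) : Prop :=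
  ∃ P : MvPolynomial (Σ j, (p j).κ) ℂ, (∀ x, P.degreeOf x ≤ d) ∧
    (∀ s, ∃ c : Fin g → ℂ, (∀ i, SInt (Set.range a) (T ^ A) (c i)) ∧ P.coeff s = ∑ i, ω i * c i) ∧
    ∃ s₀, P.coeff s₀ ≠ 0 ∧ ‖MvPolynomial.aeval (fun z : Σ j, (p j).κ => (p z.1).y z.2 (a z.1)) P‖ ≤
      T ^ (-B) * ‖P.coeff s₀‖

/-- change of variables in relations -/
theorem relP_of {N g n : ℕ} (p : Fin N → Piece) (ω : Fin g → ℂ) (d : ℕ) (A B T : ℝ) (hT : 0 ≤ T) (a : Fin N → ℂ)
    (f : Fin n → Σ j, (p j).κ) (hfi : Function.Injective f) (s : Fin n → ℂ)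
    (hs : ∀ k, (p (f k).1).y (f k).2 (a (f k).1) = s k)
    (h : ∃ P : MvPolynomial (Fin n) ℂ, (∀ k, P.degreeOf k ≤ d) ∧
      (∀ e, ∃ c : Fin g → ℂ, (∀ i, SInt (Set.range a) (T ^ A) (c i)) ∧ P.coeff e = ∑ i, ω i * c i) ∧
      ∃ e₀, P.coeff e₀ ≠ 0 ∧ ‖MvPolynomial.eval s P‖ ≤ T ^ (-B) * ‖P.coeff e₀‖) :
    RelP p ω d A B T a := by
  classical
  obtain ⟨P, hPd, hPc, s₀, hs₀, hsP⟩ := h
  refine ⟨rename f P, fun x => ?_, fun s => ?_, s₀.mapDomain f, ?_, ?_⟩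
  · rw [degreeOf_le_iff]
    intro v hv
    rw [support_rename_of_injective hfi, Finset.mem_image] at hv
    obtain ⟨v', hv', rfl⟩ := hv
    by_cases hx : x ∈ Set.range f
    · obtain ⟨x', rfl⟩ := hx
      rw [Finsupp.mapDomain_apply hfi]
      exact degreeOf_le_iff.1 (hPd x') v' hv'
    · rw [Finsupp.mapDomain_of_notMem_range _ _ hx]
      exact Nat.zero_le _
  · by_cases hx : ∃ v, Finsupp.mapDomain f v = s
    · obtain ⟨v, rfl⟩ := hx
      rw [coeff_rename_mapDomain f hfi]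
      exact hPc v
    · refine ⟨fun _ => 0, fun i => ⟨zero_mem _, isIntegral_zero, fun z hz => ?_⟩, ?_⟩
      · rw [minpoly.zero, Polynomial.aroots_X, Multiset.mem_singleton] at hz
        rw [hz, norm_zero]
        exact Real.rpow_nonneg hT _
      · rw [coeff_rename_eq_zero f P s (fun u hu => absurd ⟨u, hu⟩ hx)]
        simp
  · rw [coeff_rename_mapDomain f hfi]
    exact hs₀
  · rw [coeff_rename_mapDomain f hfi, aeval_rename]
    refine le_trans (le_of_eq ?_) hsP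
    have h1 : ((fun z : Σ j, (p j).κ => (p z.1).y z.2 (a z.1)) ∘ f) = s := funext hs
    rw [h1]
    exact congrArg norm (DFunLike.congr_fun (MvPolynomial.coe_aeval_eq_eval s) P)

theorem relP_of_relA {Adm : ℂ → Set ℂ → Prop} {K : Set ℂ} {S : Set Piece}
    (hS : ∀ a ∈ K, ∀ M : Set ℂ, Adm a M → ∃ p ∈ S, a ∈ p.C ∧ ∀ v ∈ M, ∃ i, p.y i a = v)
    {N g : ℕ} (ω : Fin g → ℂ) (d : ℕ) (A B T : ℝ) (hT : 0 ≤ T) (a : Fin N → ℂ) (ha : ∀ j, a j ∈ K)
    (h : RelA Adm ω d A B T a) : ∃ p : Fin N → Piece, (∀ j, p j ∈ S ∧ a j ∈ (p j).C) ∧ RelP p ω d A B T a := by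
  obtain ⟨n, lev, s, h1, h2, h3⟩ := h
  choose p hpS hpC hp using fun j => hS (a j) (ha j) _ (h1 j)
  refine ⟨p, fun j => ⟨hpS j, hpC j⟩, ?_⟩
  choose i hi using fun k => hp (lev k) (s k) ⟨k, rfl, rfl⟩
  refine relP_of p ω d A B T hT a (fun k => ⟨lev k, i k⟩) ?_ s hi h3
  intro k l hkl
  by_contra hne
  have h4 : lev k = lev l := congrArg Sigma.fst hkl
  refine h2 k l hne h4 ?_
  have h5 : ∀ z w : (Σ j, (p j).κ), z = w → (p z.1).y z.2 (a z.1) = (p w.1).y w.2 (a w.1) := by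
    rintro z w rfl
    rfl
  have h6 := h5 _ _ hkl
  simp only at h6
  rw [hi k, hi l] at h6
  exact h6

theorem nfd_mono {X Y : Finset ℂ} (h : X ⊆ Y) : nfd X ≤ nfd Y := by
  classical
  rw [Pool.Agent.Q192.QD.nfd_eq, Pool.Agent.Q192.QD.nfd_eq]
  exact Finset.card_le_card (Finset.image_subset_image h)

theorem MgF_mono {N : ℕ} {X Y : Fin N → Finset ℂ} (h : ∀ j, X j ⊆ Y j) : MgF X ≤ MgF Y := by
  refine Finset.sum_le_sum fun j _ => mul_le_mul (by exact_mod_cast nfd_mono (h j)) ?_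
    (Finset.prod_nonneg fun _ _ => Nat.cast_nonneg _) (Nat.cast_nonneg _)
  exact Finset.prod_le_prod (fun _ _ => Nat.cast_nonneg _) fun i _ => by exact_mod_cast Finset.card_le_card (h i)

theorem MgF_nonneg {N : ℕ} (X : Fin N → Finset ℂ) : 0 ≤ MgF X :=
  Finset.sum_nonneg fun _ _ => mul_nonneg (Nat.cast_nonneg _) (Finset.prod_nonneg fun _ _ => Nat.cast_nonneg _)

/-- the number of exceptional tuples of levels -/
theorem count {Adm : ℂ → Set ℂ → Prop} {K : Set ℂ} (hK : Cov Adm K) (N m d g : ℕ) (A ε : ℝ) (hε : 0 < ε) :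
    ∃ B C T₀ : ℝ, ∀ (ω : Fin g → ℂ) (T : ℝ), T₀ ≤ T → ∀ X : Fin N → Finset ℂ,
      (∀ j, ∀ x ∈ X j, x ∈ K ∧ AlgLe m T x) →
      {a : Fin N → ℂ | (∀ j, a j ∈ X j) ∧ RelA Adm ω d A B T a}.Finite ∧
      ({a : Fin N → ℂ | (∀ j, a j ∈ X j) ∧ RelA Adm ω d A B T a}.ncard : ℝ) ≤ C * T ^ ε * MgF X := by
  classical
  obtain ⟨S, hSf, hS⟩ := hK
  have hfin : Fintype S := hSf.fintype
  have key := fun p : Fin N → S => fields_sigma (η := Fin g) m N d (κ := fun j => (p j).1.κ)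
    (U := fun j => (p j).1.U) (fun j => (p j).1.hU) (fun j => (p j).1.hc) (y := fun j => (p j).1.y)
    (fun j => (p j).1.hy) (fun j => (p j).1.hl) (K := fun j => (p j).1.C) (fun j => (p j).1.hC)
    (fun j => (p j).1.hCU) A ε hε
  choose B C T₀ H using key
  obtain ⟨B', hB'⟩ := (Set.finite_range B).bddAbove
  obtain ⟨T', hT'⟩ := (Set.finite_range T₀).bddAbove
  refine ⟨B', ∑ p, |C p|, max T' 1, fun ω T hT X hX => ?_⟩
  have hT1 : 1 ≤ T := (le_max_right _ _).trans hT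
  have hT0 : 0 ≤ T := by linarith
  set E : Set (Fin N → ℂ) := {a : Fin N → ℂ | (∀ j, a j ∈ X j) ∧ RelA Adm ω d A B' T a} with hE
  set X' : (Fin N → S) → Fin N → Finset ℂ := fun p j => (X j).filter fun x => x ∈ (p j).1.C with hX'
  set E' : (Fin N → S) → Set (Fin N → ℂ) := fun p =>
    {a | (∀ j, a j ∈ X' p j) ∧ RelP (fun j => (p j).1) ω d A (B p) T a} with hE'
  have h1 : ∀ p, (E' p).Finite ∧ ((E' p).ncard : ℝ) ≤ C p * T ^ ε * MgF (X' p) := by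
    intro p
    refine H p ω T ((hT' ⟨p, rfl⟩).trans ((le_max_left _ _).trans hT)) (X' p) (fun j x hx => ?_) (E' p)
      (fun a ha => ha)
    rw [hX', Finset.mem_filter] at hx
    exact ⟨hx.2, (hX j x hx.1).2⟩
  have h2 : E ⊆ ⋃ p, E' p := by
    rintro a ⟨ha, hrel⟩
    obtain ⟨p, hp, hP⟩ := relP_of_relA hS ω d A B' T hT0 a (fun j => (hX j _ (ha j)).1) hrel
    refine Set.mem_iUnion.2 ⟨fun j => ⟨p j, (hp j).1⟩, fun j => ?_, ?_⟩
    · rw [hX', Finset.mem_filter]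
      exact ⟨ha j, (hp j).2⟩
    · obtain ⟨P, hd, hc, s₀, hs, hv⟩ := hP
      refine ⟨P, hd, hc, s₀, hs, hv.trans (mul_le_mul_of_nonneg_right ?_ (norm_nonneg _))⟩
      exact Real.rpow_le_rpow_of_exponent_le hT1 (neg_le_neg (hB' ⟨_, rfl⟩))
  have h3 : (⋃ p, E' p).Finite := Set.finite_iUnion fun p => (h1 p).1
  refine ⟨h3.subset h2, ?_⟩
  calc (E.ncard : ℝ) ≤ ((⋃ p, E' p).ncard : ℝ) := by exact_mod_cast Set.ncard_le_ncard h2 h3
    _ ≤ ∑ p, ((E' p).ncard : ℝ) := by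
        have h4 : (⋃ p, E' p).ncard ≤ ∑ p, (E' p).ncard := by
          have h5 := Finset.set_ncard_biUnion_le Finset.univ E'
          simpa using h5
        exact_mod_cast h4
    _ ≤ ∑ p, |C p| * T ^ ε * MgF X := Finset.sum_le_sum fun p _ => by
        refine (h1 p).2.trans ?_
        refine mul_le_mul ?_ (MgF_mono fun j => Finset.filter_subset _ _) (MgF_nonneg _) (by positivity)
        exact mul_le_mul_of_nonneg_right (le_abs_self _) (by positivity)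
    _ = (∑ p, |C p|) * T ^ ε * MgF X := by rw [Finset.sum_mul, Finset.sum_mul]

end Pool.Agent.H97.AL
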