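import Pool.Agent.H97.AL.Count
import Pool.Graph.R_pool_sql_team_seeded_2aa45f1a.Q229.RAM

/-!
# All algebraic levels near almost every level
-/

set_option autoImplicit false

open Filter Topology Set MvPolynomial

namespace Pool.Agent.H97.AL

open Pool.Agent.Y124 (LocInd)
open Pool.Agent.Q192.QD (AlgLe SInt nfd MgF fields_sigma)

theorem relP_mono {N g : ℕ} (p : Fin N → Piece) (ω : Fin g → ℂ) (d : ℕ) {A B B' T : ℝ} (hT : 1 ≤ T) (hB : B ≤ B')
    (a : Fin N → ℂ) (h : RelP p ω d A B' T a) : RelP p ω d A B T a := by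
  obtain ⟨P, hd, hc, s₀, hs, hv⟩ := h
  refine ⟨P, hd, hc, s₀, hs, hv.trans (mul_le_mul_of_nonneg_right ?_ (norm_nonneg _))⟩
  exact Real.rpow_le_rpow_of_exponent_le hT (neg_le_neg hB)

theorem dimtuples {Adm : ℂ → Set ℂ → Prop} {W : Set ℂ} (hW : ∀ x ∈ W, ∃ t ∈ 𝓝 x, Cov Adm t) {N : ℕ} (hN : 1 ≤ N)
    {g : ℕ} (ω : Fin g → ℂ) (m : ℕ) (τ : ℝ) (hτ : 0 < τ) :
    ∃ Z : Set (Fin N → ℂ), dimH Z ≤ ENNReal.ofReal (((m : ℝ) + 1) * ((N : ℝ) - 1) / τ) ∧
      ∀ x : Fin N → ℂ, (∀ j, x j ∈ W) → x ∉ Z → ∀ F : Fin N → IntermediateField ℚ ℂ,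
        (∀ j, FiniteDimensional ℚ (F j)) → ∀ (d : ℕ) (A : ℝ), ∃ B : ℝ, ∀ᶠ T : ℝ in atTop, ∀ a : Fin N → ℂ,
          (∀ j, a j ∈ F j ∧ AlgLe m T (a j) ∧ ‖x j - a j‖ ≤ T ^ (-τ)) → ¬ RelA Adm ω d A B T a := by
  classical
  choose! t ht S hSf hS using hW
  obtain ⟨c, hcW, hcc, hcov⟩ := TopologicalSpace.countable_cover_nhdsWithin (s := W) (f := fun x => interior (t x))
    (fun x hx => mem_nhdsWithin_of_mem_nhds (interior_mem_nhds.2 (ht x hx)))
  set PS : Set Piece := ⋃ x ∈ c, S x with hPS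
  have hPSc : PS.Countable := hcc.biUnion fun x hx => (hSf x (hcW hx)).countable
  have hPSc' : Countable PS := hPSc.to_subtype
  have key := fun f : Fin N → PS => Pool.Agent.Q229.RAN.tuples hN (κ := fun j => (f j).1.κ)
    (U := fun j => (f j).1.U) (fun j => (f j).1.hU) (fun j => (f j).1.hc) (y := fun j => (f j).1.y)
    (fun j => (f j).1.hy) (fun j => (f j).1.hl) ω m τ hτ
  choose Z hZ h using key
  refine ⟨⋃ f, Z f, ?_, fun x hx hxZ F hF d A => ?_⟩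
  · rw [dimH_iUnion]
    exact iSup_le hZ
  have h1 : ∀ j, ∃ x' ∈ c, x j ∈ interior (t x') := fun j => by
    obtain ⟨x', hx', h2⟩ := Set.mem_iUnion₂.1 (hcov (hx j))
    exact ⟨x', hx', h2⟩
  choose x' hx'c hx' using h1
  -- the finitely many tuples of pieces
  set Q : Set (Fin N → PS) := {f | ∀ j, (f j).1 ∈ S (x' j)} with hQ
  have hQf : Q.Finite :=
    Set.Finite.pi' fun j => (hSf _ (hcW (hx'c j))).preimage (Subtype.val_injective.injOn)
  have h3 : ∀ f : Fin N → PS, ∃ B : ℝ, ∀ᶠ T : ℝ in atTop, ∀ a : Fin N → ℂ,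
      (∀ j, a j ∈ F j ∧ AlgLe m T (a j) ∧ ‖x j - a j‖ ≤ T ^ (-τ)) → (∀ j, a j ∈ (f j).1.C) →
        ¬ RelP (fun j => (f j).1) ω d A B T a := by
    intro f
    by_cases hxC : ∀ j, x j ∈ (f j).1.C
    · obtain ⟨B, hB⟩ := h f x (fun j => (f j).1.hCU (hxC j)) (fun hh => hxZ (Set.mem_iUnion.2 ⟨f, hh⟩)) F hF d A
      exact ⟨B, hB.mono fun T hT a ha _ => hT a ha⟩
    · push Not at hxC
      obtain ⟨j, hj⟩ := hxC
      obtain ⟨δ, hδ, hball⟩ := Metric.isOpen_iff.1 (f j).1.hC.isClosed.isOpen_compl (x j) hj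
      refine ⟨0, ?_⟩
      filter_upwards [(tendsto_rpow_neg_atTop hτ).eventually_lt_const hδ] with T hT a ha haC _
      refine hball ?_ (haC j)
      rw [Metric.mem_ball, dist_comm, dist_eq_norm]
      exact (ha j).2.2.trans_lt hT
  choose B hB using h3
  obtain ⟨B', hB'⟩ := (hQf.image B).bddAbove
  refine ⟨B', ?_⟩
  have h4 : ∀ᶠ T : ℝ in atTop, ∀ f ∈ Q, ∀ a : Fin N → ℂ,
      (∀ j, a j ∈ F j ∧ AlgLe m T (a j) ∧ ‖x j - a j‖ ≤ T ^ (-τ)) → (∀ j, a j ∈ (f j).1.C) →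
        ¬ RelP (fun j => (f j).1) ω d A (B f) T a := by
    rw [Filter.eventually_all_finite hQf]
    exact fun f _ => hB f
  have h5 : ∀ᶠ T : ℝ in atTop, ∀ j, ∀ z : ℂ, ‖x j - z‖ ≤ T ^ (-τ) → z ∈ t (x' j) := by
    rw [eventually_all]
    intro j
    obtain ⟨δ, hδ, hball⟩ := Metric.isOpen_iff.1 isOpen_interior (x j) (hx' j)
    filter_upwards [(tendsto_rpow_neg_atTop hτ).eventually_lt_const hδ] with T hT z hz
    refine interior_subset (hball ?_)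
    rw [Metric.mem_ball, dist_comm, dist_eq_norm]
    exact hz.trans_lt hT
  filter_upwards [h4, h5, eventually_ge_atTop 1] with T hT hT5 hT1 a ha hrel
  obtain ⟨n, lev, s, r1, r2, r3⟩ := hrel
  choose p hpS hpC hp using fun j => hS (x' j) (hcW (hx'c j)) (a j) (hT5 j _ (ha j).2.2) _ (r1 j)
  have hpPS : ∀ j, p j ∈ PS := fun j => Set.mem_iUnion₂.2 ⟨x' j, hx'c j, hpS j⟩
  choose i hi using fun k => hp (lev k) (s k) ⟨k, rfl, rfl⟩
  have h6 : RelP p ω d A B' T a := by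
    refine relP_of p ω d A B' T (by linarith) a (fun k => ⟨lev k, i k⟩) ?_ s hi r3
    intro k l hkl
    by_contra hne
    have h4 : lev k = lev l := congrArg Sigma.fst hkl
    refine r2 k l hne h4 ?_
    have h5 : ∀ z w : (Σ j, (p j).κ), z = w → (p z.1).y z.2 (a z.1) = (p w.1).y w.2 (a w.1) := by
      rintro z w rfl
      rfl
    have h6 := h5 _ _ hkl
    simp only at h6
    rw [hi k, hi l] at h6
    exact h6
  set f : Fin N → PS := fun j => ⟨p j, hpPS j⟩ with hf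
  have hfQ : f ∈ Q := hpS
  exact hT f hfQ a ha hpC (relP_mono _ ω d hT1 (hB' ⟨f, hfQ, rfl⟩) a h6)

end Pool.Agent.H97.AL
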