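import Pool.Agent.H97.AL.Branch
import Pool.Agent.H97.AL.Count
import Pool.Graph.R_pool_sql_team_seeded_1acbe0a2.Y922.AP.Fin

/-!
# The pieces near a level: solutions and ordinates
-/

set_option autoImplicit false

open Filter Topology Set MvPolynomial

namespace Pool.Agent.H97.AL

open Pool.Agent.Y124 (LocInd)
open Pool.Agent.Y922.AP (adj)

/-- almost all levels are generic -/
def Gen (f : ℂ → ℂ) : Prop :=
  ∀ K : Subfield ℂ, Countable K → ∃ E : Set ℂ, E.Countable ∧ (∀ a : ℂ, a ∉ E → Transcendental K a ∧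
      ∀ (n : ℕ) (s : Fin n → ℂ), (∀ i, f (s i) = a) → (∀ i j, i ≠ j → s i ≠ s j ∧ s i + s j ≠ 1) →
        AlgebraicIndependent (adj K a) s) ∧
      ∀ a : ℝ, (a : ℂ) ∉ E → AlgebraicIndependent (adj K a)
        (fun γ : {γ : ℝ // 0 < γ ∧ ∃ β : ℝ, f ((β : ℂ) + (γ : ℂ) * Complex.I) = (a : ℂ)} => ((γ.1 : ℝ) : ℂ))

/-- sets of solutions of `f s = a` in the disc `|s| ≤ R` without pairs `s`, `1 - s` -/
def Sol (f : ℂ → ℂ) (R : ℝ) (a : ℂ) (M : Set ℂ) : Prop :=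
  (∀ v ∈ M, ‖v‖ ≤ R ∧ f v = a) ∧ ∀ v ∈ M, ∀ w ∈ M, v ≠ w → v + w ≠ 1

/-- the positive ordinates of the solutions of `f s = a` in the disc `|s| ≤ R` -/
def Ords (f : ℂ → ℂ) (R : ℝ) (a : ℂ) : Set ℝ :=
  {γ | 0 < γ ∧ ∃ β : ℝ, ‖(β : ℂ) + (γ : ℂ) * Complex.I‖ ≤ R ∧ f ((β : ℂ) + (γ : ℂ) * Complex.I) = a}

/-- sets of ordinates at a real level -/
def SolO (f : ℂ → ℂ) (R : ℝ) (a : ℂ) (M : Set ℂ) : Prop :=
  a.im = 0 ∧ ∀ v ∈ M, ∃ γ ∈ Ords f R a, (γ : ℂ) = v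

/-- the level `a` is regular in the disc `|s| ≤ R` -/
def Reg (f : ℂ → ℂ) (R : ℝ) (a : ℂ) : Prop := ∀ s : ℂ, ‖s‖ ≤ R → f s = a → deriv f s ≠ 0

theorem loc_sol_aux {f : ℂ → ℂ} (hG : Gen f) {M : Finset ℂ} (g : ℂ → ℂ → ℂ) (t : ℂ)
    (h1 : ∀ s ∈ M, AnalyticAt ℂ (g s) t) (h2 : ∀ s ∈ M, ∀ᶠ a in 𝓝 t, f (g s a) = a)
    (h3 : ∀ s ∈ M, ∀ s' ∈ M, s ≠ s' → g s t ≠ g s' t ∧ g s t + g s' t ≠ 1) :
    LocInd (fun s : M => g s) t := by
  classical
  set n := Fintype.card M with hn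
  let e : M ≃ Fin n := Fintype.equivFin M
  have key : LocInd (fun i : Fin n => g (e.symm i : ℂ)) t := by
    intro P hP
    by_contra hP0
    have h4 := Pool.Agent.Y922.AP.fun_of (f := f) (fun K hK => by
      obtain ⟨E, hE, hE1, -⟩ := hG K hK
      exact ⟨E, hE, fun a ha m s hs hd => (Pool.Agent.Y388.AP.t_TOW K a (Fin m) s).mpr
        ⟨(hE1 a ha).1, (hE1 a ha).2 m s hs hd⟩⟩) n P hP0 t (fun i => g (e.symm i : ℂ))
      (fun i => h1 _ (e.symm i).2) (fun i => h2 _ (e.symm i).2) (fun i j hij => by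
        refine h3 _ (e.symm i).2 _ (e.symm j).2 ?_
        intro hh
        exact hij (e.symm.injective (Subtype.ext hh)))
    have h5 : ∀ᶠ a in 𝓝[≠] t, False := by
      filter_upwards [h4, hP.filter_mono nhdsWithin_le_nhds] with a ha ha'
      exact ha ha'
    exact (NeBot.ne (inferInstance : (𝓝[≠] t).NeBot)) (eventually_false_iff_eq_bot.1 h5)
  have h6 := Pool.Agent.Y776.Cv.LocInd.comp_inj key e.injective
  refine Eq.mp ?_ h6
  congr 1
  funext s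
  rw [Equiv.symm_apply_apply]

/-- the solutions near a regular level -/
theorem loc_sol {f : ℂ → ℂ} (hf : Differentiable ℂ f) (hs : ∀ s, f (1 - s) = f s) (hG : Gen f) (R : ℝ) (a₀ : ℂ)
    (ha₀ : Reg f R a₀) : ∃ t ∈ 𝓝 a₀, Cov (Sol f R) t := by
  classical
  obtain ⟨Z, g, hg, hcov⟩ := cover hf a₀ R ha₀
  -- the conditions on the radius
  have c1 : ∀ᶠ a in 𝓝 a₀, ∀ s ∈ Z, AnalyticAt ℂ (g s) a := by
    rw [Finset.eventually_all]
    exact fun s hsZ => (hg s hsZ).1.eventually_analyticAt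
  have c2 : ∀ᶠ a in 𝓝 a₀, ∀ s ∈ Z, f (g s a) = a := by
    rw [Finset.eventually_all]
    exact fun s hsZ => (hg s hsZ).2.2.2.1
  have c3 : ∀ᶠ a in 𝓝 a₀, ∀ s ∈ Z, ∀ s' ∈ Z, (s ≠ s' → g s a ≠ g s' a) := by
    rw [Finset.eventually_all]
    intro s hsZ
    rw [Finset.eventually_all]
    intro s' hsZ'
    by_cases hss : s = s'
    · exact Eventually.of_forall fun a h => absurd hss h
    · have h1 : ∀ᶠ a in 𝓝 a₀, g s a - g s' a ≠ 0 :=
        ((hg s hsZ).1.continuousAt.sub (hg s' hsZ').1.continuousAt).eventually_ne (by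
          change g s a₀ - g s' a₀ ≠ 0
          rw [(hg s hsZ).2.1, (hg s' hsZ').2.1]
          exact sub_ne_zero.2 hss)
      filter_upwards [h1] with a ha _
      exact sub_ne_zero.1 ha
  have c4 : ∀ᶠ a in 𝓝 a₀, ∀ s ∈ Z, ∀ s' ∈ Z, (s + s' ≠ 1 → g s a + g s' a ≠ 1) := by
    rw [Finset.eventually_all]
    intro s hsZ
    rw [Finset.eventually_all]
    intro s' hsZ'
    by_cases hss : s + s' = 1
    · exact Eventually.of_forall fun a h => absurd hss h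
    · have h1 : ∀ᶠ a in 𝓝 a₀, g s a + g s' a ≠ 1 :=
        ((hg s hsZ).1.continuousAt.add (hg s' hsZ').1.continuousAt).eventually_ne (by
          change g s a₀ + g s' a₀ ≠ 1
          rw [(hg s hsZ).2.1, (hg s' hsZ').2.1]
          exact hss)
      filter_upwards [h1] with a ha _
      exact ha
  have c5 : ∀ᶠ a in 𝓝 a₀, ∀ s ∈ Z, ∀ s' ∈ Z, (s + s' = 1 → g s a + g s' a = 1) := by
    rw [Finset.eventually_all]
    intro s hsZ
    rw [Finset.eventually_all]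
    intro s' hsZ'
    by_cases hss : s + s' = 1
    · have h1 : Tendsto (fun a => 1 - g s a) (𝓝 a₀) (𝓝 s') := by
        have h2 : Tendsto (g s) (𝓝 a₀) (𝓝 s) := by
          have := (hg s hsZ).1.continuousAt.tendsto
          rwa [(hg s hsZ).2.1] at this
        have h3 := (tendsto_const_nhds (x := (1 : ℂ))).sub h2
        rwa [show (1 : ℂ) - s = s' by rw [← hss]; ring] at h3
      filter_upwards [h1.eventually (hg s' hsZ').2.2.2.2, (hg s hsZ).2.2.2.1] with a ha ha' _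
      rw [hs, ha'] at ha
      rw [ha]
      ring
    · exact Eventually.of_forall fun a h => absurd h hss
  have call := c1.and (c2.and (c3.and (c4.and (c5.and hcov))))
  obtain ⟨r, hr, hball⟩ := Metric.eventually_nhds_iff_ball.1 call
  have hgood : ∀ M : {M : Finset ℂ // M ⊆ Z ∧ ∀ s ∈ M, ∀ s' ∈ M, s ≠ s' → s + s' ≠ 1},
      ∀ t ∈ Metric.ball a₀ r, LocInd (fun s : M.1 => g s) t := by
    rintro ⟨M, hMZ, hM⟩ t ht
    refine loc_sol_aux hG g t (fun s hsM => (hball t ht).1 s (hMZ hsM)) (fun s hsM => ?_) (fun s hsM s' hsM' hne => ?_)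
    · filter_upwards [Metric.isOpen_ball.mem_nhds ht] with a ha
      exact (hball a ha).2.1 s (hMZ hsM)
    · exact ⟨(hball t ht).2.2.1 s (hMZ hsM) s' (hMZ hsM') hne,
        (hball t ht).2.2.2.1 s (hMZ hsM) s' (hMZ hsM') (hM s hsM s' hsM' hne)⟩
  let pc : {M : Finset ℂ // M ⊆ Z ∧ ∀ s ∈ M, ∀ s' ∈ M, s ≠ s' → s + s' ≠ 1} → Piece := fun M =>
    { κ := M.1
      fin := inferInstance
      U := Metric.ball a₀ r
      C := Metric.closedBall a₀ (r / 2)
      y := fun s => g s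
      hU := Metric.isOpen_ball
      hc := (convex_ball a₀ r).isPreconnected
      hC := isCompact_closedBall _ _
      hCU := Metric.closedBall_subset_ball (by linarith)
      hy := fun s t ht => (hball t ht).1 s (M.2.1 s.2)
      hl := hgood M }
  have hfin : Finite {M : Finset ℂ // M ⊆ Z ∧ ∀ s ∈ M, ∀ s' ∈ M, s ≠ s' → s + s' ≠ 1} := by
    refine Finite.of_injective (β := {M : Finset ℂ // M ∈ Z.powerset})
      (fun M => ⟨M.1, Finset.mem_powerset.2 M.2.1⟩) ?_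
    intro M M' h
    exact Subtype.ext (congrArg (fun x : {M : Finset ℂ // M ∈ Z.powerset} => x.1) h)
  refine ⟨Metric.closedBall a₀ (r / 2), Metric.closedBall_mem_nhds _ (by positivity), Set.range pc, Set.finite_range pc,
    fun a ha M hM => ?_⟩
  have hab : a ∈ Metric.ball a₀ r := Metric.closedBall_subset_ball (by linarith) ha
  obtain ⟨b1, b2, b3, b4, b5, b6⟩ := hball a hab
  refine ⟨pc ⟨Z.filter fun s => g s a ∈ M, Finset.filter_subset _ _, fun s hsM s' hsM' hne hsum => ?_⟩, ⟨_, rfl⟩, ha,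
    fun v hv => ?_⟩
  · rw [Finset.mem_filter] at hsM hsM'
    exact hM.2 _ hsM.2 _ hsM'.2 (b3 s hsM.1 s' hsM'.1 hne) (b5 s hsM.1 s' hsM'.1 hsum)
  · obtain ⟨s, hsZ, hsv⟩ := b6 v (hM.1 v hv).1 (hM.1 v hv).2
    exact ⟨⟨s, Finset.mem_filter.2 ⟨hsZ, by rw [hsv]; exact hv⟩⟩, hsv⟩

end Pool.Agent.H97.AL
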