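import Pool.Agent.H97.AL.Loc

/-!
# The pieces near a real level: ordinates
-/

set_option autoImplicit false

open Filter Topology Set MvPolynomial

namespace Pool.Agent.H97.AL

open Pool.Agent.Y124 (LocInd)
open Pool.Agent.Y922.AP (adj)

/-- imaginary parts of branches with distinct values at almost all real levels are independent -/
theorem loc_ord_aux {f : ℂ → ℂ} (hG : Gen f) {M : Finset ℂ} (g : ℂ → ℂ → ℂ) (x r : ℝ) (hr : 0 < r)
    (h1 : ∀ s ∈ M, ∀ t ∈ Metric.ball (x : ℂ) r, AnalyticAt ℂ (im (g s)) t)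
    (h2 : ∀ s ∈ M, ∀ a : ℝ, (a : ℂ) ∈ Metric.ball (x : ℂ) r → f (g s a) = a ∧ 0 < (g s a).im)
    (h3 : ∀ s ∈ M, ∀ s' ∈ M, s ≠ s' → ∀ᶠ a in 𝓝[≠] (x : ℂ), im (g s) a ≠ im (g s') a)
    (t : ℂ) (ht : t ∈ Metric.ball (x : ℂ) r) :
    LocInd (fun s : M => im (g s)) t := by
  classical
  intro P hP
  by_contra hP0
  -- the relation holds on the whole ball
  have hF : AnalyticOnNhd ℂ (fun a => MvPolynomial.eval (fun o : Option M => o.elim a fun i => im (g i) a) P)
      (Metric.ball (x : ℂ) r) := by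
    intro z hz
    have h4 := AnalyticAt.aeval_mvPolynomial (𝕜 := ℂ) (z := z)
      (f := fun a (o : Option M) => o.elim a fun i => im (g i) a) (by
        intro o
        rcases o with _ | i
        · exact analyticAt_id
        · exact h1 i i.2 z hz) P
    exact h4
  have hzero : ∀ a ∈ Metric.ball (x : ℂ) r,
      MvPolynomial.eval (fun o : Option M => o.elim a fun i => im (g i) a) P = 0 := by
    intro a ha
    have h5 := hF.eqOn_zero_of_preconnected_of_eventuallyEq_zero (convex_ball (x : ℂ) r).isPreconnected ht hP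
    exact h5 ha
  let K : Subfield ℂ := Subfield.closure (P.coeffs : Set ℂ)
  have hKc : Countable K := by
    rw [← Cardinal.mk_le_aleph0_iff]
    refine (Subfield.cardinalMk_closure_le_max _).trans (max_le ?_ le_rfl)
    rw [Cardinal.mk_le_aleph0_iff]
    exact P.coeffs.countable_toSet.to_subtype
  obtain ⟨PK, hPK⟩ : ∃ PK : MvPolynomial (Option M) K, MvPolynomial.map (algebraMap K ℂ) PK = P := by
    have h1 : P ∈ Set.range (MvPolynomial.map (algebraMap K ℂ)) := by
      rw [MvPolynomial.mem_range_map_iff_coeffs_subset]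
      intro c hc
      exact ⟨⟨c, Subfield.subset_closure hc⟩, rfl⟩
    exact h1
  have hPK0 : PK ≠ 0 := by
    rintro rfl
    exact hP0 (by rw [← hPK, map_zero])
  obtain ⟨E, hE, hE1, hE2⟩ := hG K hKc
  -- real levels near x
  have h6 : ∀ᶠ a in 𝓝[≠] (x : ℂ), ∀ s ∈ M, ∀ s' ∈ M, s ≠ s' → im (g s) a ≠ im (g s') a := by
    rw [Finset.eventually_all]
    intro s hs
    rw [Finset.eventually_all]
    intro s' hs'
    by_cases hss : s = s'
    · exact Eventually.of_forall fun a h => absurd hss h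
    · exact (h3 s hs s' hs' hss).mono fun a ha _ => ha
  have h7 : ∀ᶠ a in 𝓝[≠] (x : ℂ), a ∈ Metric.ball (x : ℂ) r :=
    mem_nhdsWithin_of_mem_nhds (Metric.isOpen_ball.mem_nhds (Metric.mem_ball_self hr))
  obtain ⟨δ, hδ, hδ2⟩ := Metric.mem_nhdsWithin_iff.1 (h6.and h7)
  -- uncountably many real levels
  have h8 : ¬ (Ioo x (x + δ) ⊆ (fun a : ℝ => (a : ℂ)) ⁻¹' E) := by
    intro hsub
    have h9 : (Ioo x (x + δ)).Countable :=
      (hE.preimage_of_injOn (fun a _ b _ hab => Complex.ofReal_injective hab)).mono hsub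
    exact (Cardinal.Real.Ioo_countable_iff.1 h9).not_gt (by linarith)
  obtain ⟨a, ha, haE⟩ := Set.not_subset.1 h8
  have hab : (a : ℂ) ∈ Metric.ball (x : ℂ) δ ∩ {(x : ℂ)}ᶜ := by
    constructor
    · rw [Metric.mem_ball, Complex.dist_eq, ← Complex.ofReal_sub, Complex.norm_real, Real.norm_eq_abs, abs_lt]
      constructor <;> linarith [ha.1, ha.2]
    · intro hh
      exact ha.1.ne' (Complex.ofReal_injective hh)
  obtain ⟨h10, h11⟩ := hδ2 hab
  have h12 := hE2 a haE
  have h13 : Function.Injective (fun s : M =>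
      (⟨(g s a).im, (h2 s s.2 a h11).2, (g s a).re, by
        have h := (h2 s s.2 a h11).1
        rwa [Complex.re_add_im]⟩ :
        {γ : ℝ // 0 < γ ∧ ∃ β : ℝ, f ((β : ℂ) + (γ : ℂ) * Complex.I) = (a : ℂ)})) := by
    intro s s' hss
    by_contra hne
    have h14 := h10 s s.2 s' s'.2 (fun h => hne (Subtype.ext h))
    rw [im_real, im_real] at h14
    exact h14 (congrArg _ (congrArg Subtype.val hss))
  have h15 := h12.comp _ h13
  have h16 := (Pool.Agent.Y388.AP.t_TOW K (a : ℂ) M _).mpr ⟨(hE1 _ haE).1, h15⟩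
  apply hPK0
  refine (algebraicIndependent_iff.1 h16) PK ?_
  rw [MvPolynomial.aeval_def, ← MvPolynomial.eval_map, hPK]
  rw [← hzero a h11]
  congr 2
  funext o
  rcases o with _ | s
  · rfl
  · exact (im_real _ _).symm

/-- the ordinates near a regular real level -/
theorem loc_ord {f : ℂ → ℂ} (hf : Differentiable ℂ f)
    (hc : ∀ s, f ((starRingEnd ℂ) s) = (starRingEnd ℂ) (f s)) (hG : Gen f) (R : ℝ) (x : ℝ)
    (hx : Reg f R x) : ∃ t ∈ 𝓝 (x : ℂ), Cov (SolO f R) t := by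
  classical
  obtain ⟨Z, g, hg, hcov⟩ := cover hf (x : ℂ) R hx
  set Y : Finset ℂ := Z.filter fun s => 0 < s.im with hY
  have hYZ : ∀ s ∈ Y, s ∈ Z ∧ 0 < s.im := fun s hs => Finset.mem_filter.1 hs
  have ht : ∀ s ∈ Z, Tendsto (g s) (𝓝 (x : ℂ)) (𝓝 s) := by
    intro s hs
    have := (hg s hs).1.continuousAt.tendsto
    rwa [(hg s hs).2.1] at this
  have hti : ∀ s ∈ Z, Tendsto (fun a => (g s a).im) (𝓝 (x : ℂ)) (𝓝 s.im) := fun s hs =>
    (Complex.continuous_im.tendsto s).comp (ht s hs)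
  have c1 : ∀ᶠ a in 𝓝 (x : ℂ), ∀ s ∈ Y, AnalyticAt ℂ (im (g s)) a := by
    rw [Finset.eventually_all]
    exact fun s hs => (im_analytic (hg s (hYZ s hs).1).1).eventually_analyticAt
  have c2 : ∀ᶠ a in 𝓝 (x : ℂ), ∀ s ∈ Z, f (g s a) = a := by
    rw [Finset.eventually_all]
    exact fun s hs => (hg s hs).2.2.2.1
  have c3 : ∀ᶠ a in 𝓝 (x : ℂ), ∀ s ∈ Z, (0 < s.im → 0 < (g s a).im) := by
    rw [Finset.eventually_all]
    intro s hs
    by_cases h : 0 < s.im
    · exact ((hti s hs).eventually (lt_mem_nhds h)).mono fun a ha _ => ha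
    · exact Eventually.of_forall fun a h' => absurd h' h
  have c4 : ∀ᶠ a in 𝓝 (x : ℂ), ∀ s ∈ Z, (s.im < 0 → (g s a).im < 0) := by
    rw [Finset.eventually_all]
    intro s hs
    by_cases h : s.im < 0
    · exact ((hti s hs).eventually (gt_mem_nhds h)).mono fun a ha _ => ha
    · exact Eventually.of_forall fun a h' => absurd h' h
  have c5 : ∀ᶠ a in 𝓝 (x : ℂ), ∀ s ∈ Z, (s.im = 0 → a.im = 0 → (g s a).im = 0) := by
    rw [Finset.eventually_all]
    intro s hs
    by_cases h : s.im = 0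
    · have h1 : Tendsto (fun a => (starRingEnd ℂ) (g s a)) (𝓝 (x : ℂ)) (𝓝 s) := by
        have h2 := (Complex.continuous_conj.tendsto s).comp (ht s hs)
        rwa [Complex.conj_eq_iff_im.2 h] at h2
      filter_upwards [h1.eventually (hg s hs).2.2.2.2, (hg s hs).2.2.2.1] with a ha ha' _ hai
      rw [hc, ha', Complex.conj_eq_iff_im.2 hai] at ha
      exact Complex.conj_eq_iff_im.1 ha.symm
    · exact Eventually.of_forall fun a h' => absurd h' h
  have c6 : ∀ᶠ a in 𝓝 (x : ℂ), ∀ s ∈ Y, ∀ s' ∈ Y,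
      ((∀ᶠ b in 𝓝 (x : ℂ), im (g s) b = im (g s') b) → im (g s) a = im (g s') a) := by
    rw [Finset.eventually_all]
    intro s hs
    rw [Finset.eventually_all]
    intro s' hs'
    by_cases h : ∀ᶠ b in 𝓝 (x : ℂ), im (g s) b = im (g s') b
    · exact h.mono fun a ha _ => ha
    · exact Eventually.of_forall fun a h' => absurd h' h
  have call := c1.and (c2.and (c3.and (c4.and (c5.and (c6.and hcov)))))
  obtain ⟨r, hr, hball⟩ := Metric.eventually_nhds_iff_ball.1 call
  have hgood : ∀ M : {M : Finset ℂ // M ⊆ Y ∧ ∀ s ∈ M, ∀ s' ∈ M, s ≠ s' →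
      ¬ ∀ᶠ b in 𝓝 (x : ℂ), im (g s) b = im (g s') b},
      ∀ t ∈ Metric.ball (x : ℂ) r, LocInd (fun s : M.1 => im (g s)) t := by
    rintro ⟨M, hMY, hM⟩ t ht
    refine loc_ord_aux hG g x r hr (fun s hs t ht => (hball t ht).1 s (hMY hs)) (fun s hs a ha => ?_)
      (fun s hs s' hs' hne => ?_) t ht
    · obtain ⟨hsZ, hs0⟩ := hYZ s (hMY hs)
      exact ⟨(hball a ha).2.1 s hsZ, (hball a ha).2.2.1 s hsZ hs0⟩
    · rcases (im_analytic (hg s (hYZ s (hMY hs)).1).1).eventually_eq_or_eventually_ne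
        (im_analytic (hg s' (hYZ s' (hMY hs')).1).1) with h | h
      · exact absurd h (hM s hs s' hs' hne)
      · exact h
  let pc : {M : Finset ℂ // M ⊆ Y ∧ ∀ s ∈ M, ∀ s' ∈ M, s ≠ s' →
      ¬ ∀ᶠ b in 𝓝 (x : ℂ), im (g s) b = im (g s') b} → Piece := fun M =>
    { κ := M.1
      fin := inferInstance
      U := Metric.ball (x : ℂ) r
      C := Metric.closedBall (x : ℂ) (r / 2)
      y := fun s => im (g s)
      hU := Metric.isOpen_ball
      hc := (convex_ball (x : ℂ) r).isPreconnected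
      hC := isCompact_closedBall _ _
      hCU := Metric.closedBall_subset_ball (by linarith)
      hy := fun s t ht => (hball t ht).1 s (M.2.1 s.2)
      hl := hgood M }
  have hfin : Finite {M : Finset ℂ // M ⊆ Y ∧ ∀ s ∈ M, ∀ s' ∈ M, s ≠ s' →
      ¬ ∀ᶠ b in 𝓝 (x : ℂ), im (g s) b = im (g s') b} := by
    refine Finite.of_injective (β := {M : Finset ℂ // M ∈ Y.powerset})
      (fun M => ⟨M.1, Finset.mem_powerset.2 M.2.1⟩) ?_
    intro M M' h
    exact Subtype.ext (congrArg (fun x : {M : Finset ℂ // M ∈ Y.powerset} => x.1) h)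
  refine ⟨Metric.closedBall (x : ℂ) (r / 2), Metric.closedBall_mem_nhds _ (by positivity), Set.range pc,
    Set.finite_range pc, fun a ha M hM => ?_⟩
  have hab : a ∈ Metric.ball (x : ℂ) r := Metric.closedBall_subset_ball (by linarith) ha
  obtain ⟨b1, b2, b3, b4, b5, b6, b7⟩ := hball a hab
  have hai : a.im = 0 := hM.1
  have hare : ((a.re : ℝ) : ℂ) = a := Complex.ext rfl (by simp [hai])
  have hch : ∀ v : ℂ, ∃ s : ℂ, v ∈ M → s ∈ Y ∧ im (g s) a = v := by
    intro v
    by_cases hv : v ∈ M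
    · obtain ⟨γ, ⟨hγ, β, hβ, hfβ⟩, rfl⟩ := hM.2 v hv
      obtain ⟨s, hs, hsa⟩ := b7 _ hβ hfβ
      have him : (g s a).im = γ := by rw [hsa]; simp
      refine ⟨s, fun _ => ⟨Finset.mem_filter.2 ⟨hs, ?_⟩, ?_⟩⟩
      · rcases lt_trichotomy s.im 0 with h | h | h
        · have := b4 s hs h
          linarith
        · have := b5 s hs h hai
          linarith
        · exact h
      · rw [← hare, im_real, hare, him]
    · exact ⟨0, fun h => absurd h hv⟩
  choose w hw using hch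
  refine ⟨pc ⟨Y.filter fun s => ∃ v ∈ M, w v = s, Finset.filter_subset _ _, fun s hs s' hs' hne hev => ?_⟩,
    ⟨_, rfl⟩, ha, fun v hv => ?_⟩
  · obtain ⟨hsY, v, hv, rfl⟩ := Finset.mem_filter.1 hs
    obtain ⟨hsY', v', hv', rfl⟩ := Finset.mem_filter.1 hs'
    have h1 := b6 _ hsY _ hsY' hev
    rw [(hw v hv).2, (hw v' hv').2] at h1
    exact hne (by rw [h1])
  · exact ⟨⟨w v, Finset.mem_filter.2 ⟨(hw v hv).1, v, hv, rfl⟩⟩, (hw v hv).2⟩

end Pool.Agent.H97.AL
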