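import Pool.Agent.H97.AL.LocO
import Pool.Agent.H97.AL.Dim

/-!
# Algebraic levels of the Riemann xi function: definitions and the two main theorems
-/

set_option autoImplicit false

open Filter Topology Set MvPolynomial

namespace Pool.Agent.H97.AL

open Pool.Agent.Q192.QD (AlgLe SInt nfd MgF)
open Pool.Agent.Y922.AP (xi)

/-- the relation between numbers -/
def RelN {n N g : ℕ} (ω : Fin g → ℂ) (d : ℕ) (A B T : ℝ) (a : Fin N → ℂ) (s : Fin n → ℂ) : Prop :=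
  ∃ P : MvPolynomial (Fin n) ℂ, (∀ k, P.degreeOf k ≤ d) ∧
    (∀ e, ∃ c : Fin g → ℂ, (∀ i, SInt (Set.range a) (T ^ A) (c i)) ∧ P.coeff e = ∑ i, ω i * c i) ∧
    ∃ e, P.coeff e ≠ 0 ∧ ‖MvPolynomial.eval s P‖ ≤ T ^ (-B) * ‖P.coeff e‖

/-- there is a relation between solutions -/
def ExS (f : ℂ → ℂ) {N g : ℕ} (R : ℝ) (ω : Fin g → ℂ) (d : ℕ) (A B T : ℝ) (a : Fin N → ℂ) : Prop :=
  ∃ (n : ℕ) (lev : Fin n → Fin N) (s : Fin n → ℂ), (∀ k, ‖s k‖ ≤ R ∧ f (s k) = a (lev k)) ∧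
    (∀ k l, k ≠ l → lev k = lev l → s k ≠ s l ∧ s k + s l ≠ 1) ∧ RelN ω d A B T a s

/-- there is a relation between ordinates -/
def ExO (f : ℂ → ℂ) {N g : ℕ} (R : ℝ) (ω : Fin g → ℂ) (d : ℕ) (A B T : ℝ) (a : Fin N → ℂ) : Prop :=
  (∀ j, (a j).im = 0) ∧ ∃ (n : ℕ) (lev : Fin n → Fin N) (γ : Fin n → ℝ), (∀ k, γ k ∈ Ords f R (a (lev k))) ∧
    (∀ k l, k ≠ l → lev k = lev l → γ k ≠ γ l) ∧ RelN ω d A B T a (fun k => (γ k : ℂ))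

theorem ExS.rel {f : ℂ → ℂ} {N g : ℕ} {R : ℝ} {ω : Fin g → ℂ} {d : ℕ} {A B T : ℝ} {a : Fin N → ℂ}
    (h : ExS f R ω d A B T a) : RelA (Sol f R) ω d A B T a := by
  obtain ⟨n, lev, s, h1, h2, h3⟩ := h
  refine ⟨n, lev, s, fun j => ⟨?_, ?_⟩, fun k l hkl hlev => (h2 k l hkl hlev).1, h3⟩
  · rintro v ⟨k, rfl, rfl⟩
    exact h1 k
  · rintro v ⟨k, hk, rfl⟩ w ⟨l, hl, rfl⟩ hvw
    have hkl : k ≠ l := by
      rintro rfl
      exact hvw rfl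
    exact (h2 k l hkl (hk.trans hl.symm)).2

theorem ExO.rel {f : ℂ → ℂ} {N g : ℕ} {R : ℝ} {ω : Fin g → ℂ} {d : ℕ} {A B T : ℝ} {a : Fin N → ℂ}
    (h : ExO f R ω d A B T a) : RelA (SolO f R) ω d A B T a := by
  obtain ⟨h0, n, lev, γ, h1, h2, h3⟩ := h
  refine ⟨n, lev, fun k => (γ k : ℂ), fun j => ⟨h0 j, ?_⟩, fun k l hkl hlev hh =>
    h2 k l hkl hlev (Complex.ofReal_injective hh), h3⟩
  rintro v ⟨k, rfl, rfl⟩
  exact ⟨γ k, h1 k, rfl⟩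

theorem cov_sol {f : ℂ → ℂ} (hf : Differentiable ℂ f) (hs : ∀ s, f (1 - s) = f s) (hG : Gen f) (R : ℝ) {K : Set ℂ}
    (hK : IsCompact K) (hreg : ∀ a ∈ K, Reg f R a) : Cov (Sol f R) K :=
  Cov.of_local hK fun x hx => loc_sol hf hs hG R x (hreg x hx)

theorem loc_ord' {f : ℂ → ℂ} (hf : Differentiable ℂ f)
    (hc : ∀ s, f ((starRingEnd ℂ) s) = (starRingEnd ℂ) (f s)) (hG : Gen f) (R : ℝ) (x : ℂ) (hx : Reg f R x) :
    ∃ t ∈ 𝓝 x, Cov (SolO f R) t := by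
  by_cases h : x.im = 0
  · have h1 : ((x.re : ℝ) : ℂ) = x := Complex.ext rfl (by simp [h])
    have h2 := loc_ord hf hc hG R x.re (by rwa [h1])
    rwa [h1] at h2
  · refine ⟨{z | z.im ≠ 0}, (isOpen_ne_fun Complex.continuous_im continuous_const).mem_nhds h, ∅,
      Set.finite_empty, fun a ha M hM => absurd hM.1 ha⟩

theorem cov_ord {f : ℂ → ℂ} (hf : Differentiable ℂ f)
    (hc : ∀ s, f ((starRingEnd ℂ) s) = (starRingEnd ℂ) (f s)) (hG : Gen f) (R : ℝ) {K : Set ℂ}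
    (hK : IsCompact K) (hreg : ∀ a ∈ K, Reg f R a) : Cov (SolO f R) K :=
  Cov.of_local hK fun x hx => loc_ord' hf hc hG R x (hreg x hx)

theorem relA_mono {Adm : ℂ → Set ℂ → Prop} {N g : ℕ} {ω : Fin g → ℂ} {d : ℕ} {A B B' T : ℝ} (hT : 1 ≤ T)
    (hB : B ≤ B') {a : Fin N → ℂ} (h : RelA Adm ω d A B' T a) : RelA Adm ω d A B T a := by
  obtain ⟨n, lev, s, h1, h2, P, hd, hc, e, he, hv⟩ := h
  refine ⟨n, lev, s, h1, h2, P, hd, hc, e, he, hv.trans (mul_le_mul_of_nonneg_right ?_ (norm_nonneg _))⟩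
  exact Real.rpow_le_rpow_of_exponent_le hT (neg_le_neg hB)

/-- the counting theorem -/
theorem count_levels {f : ℂ → ℂ} (hf : Differentiable ℂ f) (hs : ∀ s, f (1 - s) = f s)
    (hc : ∀ s, f ((starRingEnd ℂ) s) = (starRingEnd ℂ) (f s)) (hG : Gen f) (R : ℝ) {K : Set ℂ} (hK : IsCompact K)
    (hreg : ∀ a ∈ K, Reg f R a) (N m d g : ℕ) (A ε : ℝ) (hε : 0 < ε) :
    ∃ B C T₀ : ℝ, ∀ (ω : Fin g → ℂ) (T : ℝ), T₀ ≤ T → ∀ X : Fin N → Finset ℂ,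
      (∀ j, ∀ x ∈ X j, x ∈ K ∧ AlgLe m T x) →
      {a : Fin N → ℂ | (∀ j, a j ∈ X j) ∧ (ExS f R ω d A B T a ∨ ExO f R ω d A B T a)}.Finite ∧
      ({a : Fin N → ℂ | (∀ j, a j ∈ X j) ∧ (ExS f R ω d A B T a ∨ ExO f R ω d A B T a)}.ncard : ℝ) ≤
        C * T ^ ε * MgF X := by
  obtain ⟨B₁, C₁, T₁, H₁⟩ := count (cov_sol hf hs hG R hK hreg) N m d g A ε hε
  obtain ⟨B₂, C₂, T₂, H₂⟩ := count (cov_ord hf hc hG R hK hreg) N m d g A ε hε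
  refine ⟨max B₁ B₂, C₁ + C₂, max (max T₁ T₂) 1, fun ω T hT X hX => ?_⟩
  have hT1 : T₁ ≤ T := (le_max_left _ _).trans ((le_max_left _ _).trans hT)
  have hT2 : T₂ ≤ T := (le_max_right _ _).trans ((le_max_left _ _).trans hT)
  have hT3 : 1 ≤ T := (le_max_right _ _).trans hT
  obtain ⟨f1, n1⟩ := H₁ ω T hT1 X hX
  obtain ⟨f2, n2⟩ := H₂ ω T hT2 X hX
  have hsub : {a : Fin N → ℂ | (∀ j, a j ∈ X j) ∧ (ExS f R ω d A (max B₁ B₂) T a ∨ ExO f R ω d A (max B₁ B₂) T a)} ⊆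
      {a : Fin N → ℂ | (∀ j, a j ∈ X j) ∧ RelA (Sol f R) ω d A B₁ T a} ∪
      {a : Fin N → ℂ | (∀ j, a j ∈ X j) ∧ RelA (SolO f R) ω d A B₂ T a} := by
    rintro a ⟨ha, h | h⟩
    · exact Or.inl ⟨ha, relA_mono hT3 (le_max_left _ _) h.rel⟩
    · exact Or.inr ⟨ha, relA_mono hT3 (le_max_right _ _) h.rel⟩
  refine ⟨(f1.union f2).subset hsub, ?_⟩
  have h1 := Set.ncard_le_ncard hsub (f1.union f2)
  have h2 := h1.trans (Set.ncard_union_le _ _)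
  have h3 : ({a : Fin N → ℂ | (∀ j, a j ∈ X j) ∧
      (ExS f R ω d A (max B₁ B₂) T a ∨ ExO f R ω d A (max B₁ B₂) T a)}.ncard : ℝ) ≤
      ({a : Fin N → ℂ | (∀ j, a j ∈ X j) ∧ RelA (Sol f R) ω d A B₁ T a}.ncard : ℝ) +
      ({a : Fin N → ℂ | (∀ j, a j ∈ X j) ∧ RelA (SolO f R) ω d A B₂ T a}.ncard : ℝ) := by exact_mod_cast h2
  refine h3.trans ((add_le_add n1 n2).trans (le_of_eq ?_))
  ring

/-- all algebraic levels near almost all points -/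
theorem near_levels {f : ℂ → ℂ} (hf : Differentiable ℂ f) (hs : ∀ s, f (1 - s) = f s)
    (hc : ∀ s, f ((starRingEnd ℂ) s) = (starRingEnd ℂ) (f s)) (hG : Gen f) {N : ℕ} (hN : 1 ≤ N) {g : ℕ}
    (ω : Fin g → ℂ) (m : ℕ) (τ : ℝ) (hτ : 0 < τ) :
    ∃ Z : Set (Fin N → ℂ), dimH Z ≤ ENNReal.ofReal (((m : ℝ) + 1) * ((N : ℝ) - 1) / τ) ∧
      ∀ x : Fin N → ℂ, (∀ j, ∀ s, f s = x j → deriv f s ≠ 0) → x ∉ Z → ∀ F : Fin N → IntermediateField ℚ ℂ,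
        (∀ j, FiniteDimensional ℚ (F j)) → ∀ (R : ℝ) (d : ℕ) (A : ℝ), ∃ B : ℝ, ∀ᶠ T : ℝ in atTop,
          ∀ a : Fin N → ℂ, (∀ j, a j ∈ F j ∧ AlgLe m T (a j) ∧ ‖x j - a j‖ ≤ T ^ (-τ)) →
            ¬ (ExS f R ω d A B T a ∨ ExO f R ω d A B T a) := by
  set W : Set ℂ := {x | ∀ s, f s = x → deriv f s ≠ 0} with hW
  have key1 := fun r : ℕ => dimtuples (W := W) (fun x hx => loc_sol hf hs hG (r : ℝ) x (fun s _ hs => hx s hs)) hN ω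
    m τ hτ
  have key2 := fun r : ℕ => dimtuples (W := W) (fun x hx => loc_ord' hf hc hG (r : ℝ) x (fun s _ hs => hx s hs)) hN
    ω m τ hτ
  choose Z₁ hZ₁ H₁ using key1
  choose Z₂ hZ₂ H₂ using key2
  refine ⟨(⋃ r, Z₁ r) ∪ ⋃ r, Z₂ r, ?_, fun x hx hxZ F hF R d A => ?_⟩
  · rw [dimH_union, dimH_iUnion, dimH_iUnion]
    exact max_le (iSup_le hZ₁) (iSup_le hZ₂)
  · obtain ⟨r, hr⟩ := exists_nat_ge R
    obtain ⟨B₁, hB₁⟩ := H₁ r x hx (fun h => hxZ (Or.inl (Set.mem_iUnion.2 ⟨r, h⟩))) F hF d A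
    obtain ⟨B₂, hB₂⟩ := H₂ r x hx (fun h => hxZ (Or.inr (Set.mem_iUnion.2 ⟨r, h⟩))) F hF d A
    refine ⟨max B₁ B₂, ?_⟩
    filter_upwards [hB₁, hB₂, eventually_ge_atTop 1] with T h1 h2 hT a ha hrel
    rcases hrel with h | h
    · refine h1 a ha (relA_mono hT (le_max_left B₁ B₂) (ExS.rel (R := (r : ℝ)) ?_))
      obtain ⟨n, lev, s, h3, h4, h5⟩ := h
      exact ⟨n, lev, s, fun k => ⟨(h3 k).1.trans hr, (h3 k).2⟩, h4, h5⟩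
    · refine h2 a ha (relA_mono hT (le_max_right B₁ B₂) (ExO.rel (R := (r : ℝ)) ?_))
      obtain ⟨h0, n, lev, γ, h3, h4, h5⟩ := h
      refine ⟨h0, n, lev, γ, fun k => ?_, h4, h5⟩
      obtain ⟨h6, β, h7, h8⟩ := h3 k
      exact ⟨h6, β, h7.trans hr, h8⟩

theorem gen_xi : Gen xi := Pool.Agent.Y922.AP.final

end Pool.Agent.H97.AL
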